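import Pool.Agent.H.MP_7a0182_co.F

set_option autoImplicit false

namespace Pool.Agent.Results.MP_7a0182_co.Fifteen

/-- subchromatic number: least number of classes, none containing an induced path `u v w` -/
noncomputable def subchrom {n : ℕ} (G : SimpleGraph (Fin n)) : ℕ :=
  sInf {k : ℕ | ∃ c : Fin n → Fin k, ∀ u v w, c u = c v → c v = c w →
    G.Adj u v → G.Adj v w → u ≠ w → G.Adj u w}

theorem result : IsLeast {n : ℕ | ∃ G : SimpleGraph (Fin n), subchrom G = 5} 15 := by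
  constructor
  · let p : Fin 15 → Fin 5 := ![0, 1, 1, 2, 2, 2, 3, 3, 3, 3, 4, 4, 4, 4, 4]
    refine ⟨⟨fun u v => p u ≠ p v, ⟨fun _ _ h => h.symm⟩, ⟨fun _ h => h rfl⟩⟩, ?_⟩
    refine IsLeast.csInf_eq ⟨⟨p, fun u v w e _ h => absurd e h⟩, ?_⟩
    rintro k ⟨c, hc⟩
    by_contra hk
    let x : ℕ → ℕ → Fin 15 := fun j i => Fin.ofNat 15 (j * (j + 1) / 2 + i)
    have h1 : ∀ j < 5, ∀ i ≤ j, (p (x j i)).val = j := by decide
    have h2 : ∀ j < 5, ∀ a ≤ j, ∀ b ≤ j, a ≠ b → x j a ≠ x j b := by decide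
    refine Pool.Agent.H.MP_7a0182_co.multi 5 (Finset.range k) (fun j i => (c (x j i)).val)
      (by simpa using hk) (fun j _ i _ => by simp) ?_
    intro j hj l hl jl a ha b hb d hd ab e e'
    have ne : ∀ i ≤ j, p (x j i) ≠ p (x l d) := fun i hi z =>
      jl (by rw [← h1 j hj i hi, ← h1 l hl d hd, z])
    exact hc (x j a) (x l d) (x j b) (Fin.ext e') (Fin.ext (e'.symm.trans e)) (ne a ha)
      (ne b hb).symm (h2 j hj a ha b hb ab) (Fin.ext (by rw [h1 j hj a ha, h1 j hj b hb]))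
  · rintro n ⟨G, hG⟩
    by_contra hn
    refine Pool.Agent.H.MP_7a0182_co.not_valid
      (g := fun a b => ∃ (ha : a < n) (hb : b < n), G.Adj ⟨a, ha⟩ ⟨b, hb⟩)
      ⟨fun a _ b _ ⟨x, y, h⟩ => ⟨y, x, h.symm⟩, fun c hc H => ?_⟩
    have : subchrom G ≤ 4 := by
      refine Nat.sInf_le ⟨fun v => ⟨c v, hc v⟩, fun u v w e1 e2 a1 a2 ne => ?_⟩
      obtain ⟨_, _, h⟩ := H (c u) u (by omega) v (by omega) w (by omega) rfl
        (congrArg Fin.val e1).symm (congrArg Fin.val (e1.trans e2)).symm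
        (fun z => a1.ne (Fin.ext z)) (fun z => a2.ne (Fin.ext z)) (fun z => ne (Fin.ext z))
        ⟨u.2, v.2, a1⟩ ⟨v.2, w.2, a2⟩
      exact h
    omega

end Pool.Agent.Results.MP_7a0182_co.Fifteen
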